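import Pool.Agent.Y19.TP.Stm2
import Pool.Agent.Y171.TP.DISC

/-!
# Project TP: no other preimages very near periodic points, any residue characteristic
(adaptation of `Pool.Agent.Y171.TP.t_DISC`)
-/

set_option autoImplicit false

namespace Pool.Agent.Y930.TP

open Polynomial Function Pool.Agent.Y19.TP Pool.Agent.Y171.TP

theorem t_DISCW : ROLLEW → DISCW := by
  classical
  intro hR U _ _ _ _ d hd κ hL f hmon hdeg hf hpcf w hw hwp x hxw0 hfx
  set F : U → U := fun z => f.eval z with hF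
  by_contra hne
  have hd1 : 1 ≤ d := by omega
  -- the constant
  obtain ⟨hκ0, hκ1, -⟩ := id hL
  set D : ℝ := κ ^ (2 * d) with hD
  have hD0 : 0 < D := pow_pos hκ0 _
  have hD1 : D ≤ 1 := pow_le_one₀ hκ0.le hκ1
  have hD4 : κ ^ (8 * d) = D ^ 4 := by
    rw [hD, ← pow_mul]
    congr 1
    ring
  rw [hD4] at hxw0
  -- iterates stay in the unit ball
  have hball : ∀ (n : ℕ) (z : U), ‖z‖ ≤ 1 → ‖F^[n] z‖ ≤ 1 := by
    intro n
    induction n with
    | zero => intro z hz; exact hz
    | succ n ih =>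
      intro z hz
      rw [iterate_succ_apply]
      exact ih _ (eval_le hf z hz)
  have hnear : ∀ a b : U, ‖a‖ ≤ 1 → ‖b - a‖ < 1 → ‖b‖ ≤ 1 := by
    intro a b ha hb
    have : b = (b - a) + a := by ring
    rw [this]
    exact ultra_add hb.le ha
  have hlip : ∀ (n : ℕ) (y z : U), ‖y‖ ≤ 1 → ‖z‖ ≤ 1 → ‖F^[n] y - F^[n] z‖ ≤ ‖y - z‖ := by
    intro n
    induction n with
    | zero => intro y z _ _; exact le_rfl
    | succ n ih =>
      intro y z hy hz
      rw [iterate_succ_apply, iterate_succ_apply]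
      exact (ih _ _ (eval_le hf y hy) (eval_le hf z hz)).trans (eval_sub_le hf y z hy hz)
  -- the lemma of Rolle
  have hroll : ∀ v y : U, y ≠ v → F y = F v → ∃ c : U, (derivative f).eval c = 0 ∧
      D * ‖c - v‖ ≤ ‖y - v‖ ∧ F c ≠ F v := by
    intro v y hyv hFy
    obtain ⟨c, h1, h2, h3⟩ := hR U d hd1 κ hL (f - C (F v)) (by rw [natDegree_sub_C]; exact hdeg)
      v y (Ne.symm hyv) (by simp [hF]) (by
        have : f.eval y = f.eval v := hFy
        simp [hF, this])
    rw [derivative_sub, derivative_C, sub_zero] at h1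
    refine ⟨c, h1, h2, fun h4 => h3 ?_⟩
    have : f.eval c = f.eval v := h4
    simp [hF, this]
  -- the first critical point
  obtain ⟨c1, hc1, hc1w, hFc1⟩ := hroll w x hne hfx
  have hc1w' : ‖c1 - w‖ ≤ D ^ 3 / 2 := by
    have h1 : D * ‖c1 - w‖ ≤ D * (D ^ 3 / 2) := by
      refine hc1w.trans (hxw0.trans (le_of_eq ?_))
      ring
    exact le_of_mul_le_mul_left h1 hD0
  have hD3 : D ^ 3 ≤ 1 := pow_le_one₀ hD0.le hD1
  have hxw : ‖c1 - w‖ < 1 := by linarith
  obtain ⟨m, hm0, hm⟩ := hwp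
  have hmF : F^[m] w = w := hm
  have hwj : ∀ j : ℕ, ‖F^[j] w‖ ≤ 1 := fun j => hball j w hw
  -- uniqueness
  have huniq : ∀ (j : ℕ) (y : U), y ∈ periodicPts F → ‖y - F^[j] w‖ < 1 → y = F^[j] w := by
    intro j y hy hyj
    obtain ⟨m', hm'0, hm'⟩ := hy
    by_contra hcon
    have hy1 : ‖y‖ ≤ 1 := hnear _ _ (hwj j) hyj
    set v := F^[j] w with hv
    have hvm : F^[m] v = v := by
      rw [hv, ← iterate_add_apply, add_comm, iterate_add_apply, hmF]
    have hN : ∀ k : ℕ, F^[k * (m * m')] y = y ∧ F^[k * (m * m')] v = v := by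
      intro k
      constructor
      · have h1 : IsPeriodicPt F (k * (m * m')) y := by
          have := hm'.const_mul (k * m)
          rwa [mul_assoc] at this
        exact h1
      · have h1 : IsPeriodicPt F m v := hvm
        have h2 := h1.const_mul (k * m')
        have e : k * m' * m = k * (m * m') := by ring
        rw [e] at h2
        exact h2
    have hD0' : 0 < ‖y - v‖ := norm_pos_iff.2 (sub_ne_zero.2 hcon)
    -- the distance at all times is the same
    have hge : ∀ n : ℕ, ‖y - v‖ ≤ ‖F^[n] y - F^[n] v‖ := by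
      intro n
      have h1 : n ≤ n * (m * m') := Nat.le_mul_of_pos_right n (Nat.mul_pos hm0 hm'0)
      obtain ⟨l, hl⟩ := Nat.exists_eq_add_of_le h1
      have h2 := hlip l (F^[n] y) (F^[n] v) (hball n y hy1) (hball n v (hwj j))
      rw [← iterate_add_apply, ← iterate_add_apply, add_comm l n, ← hl, (hN n).1, (hN n).2] at h2
      exact h2
    -- the time at which `v` is at `w`
    have h3 : F^[j * m - j] v = w := by
      have h4 : j ≤ j * m := Nat.le_mul_of_pos_right j hm0
      rw [hv, ← iterate_add_apply, Nat.sub_add_cancel h4]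
      exact (show IsPeriodicPt F m w from hm).const_mul j
    set n := j * m - j with hn
    have h5 : ‖F^[n] y - w‖ < 1 := by
      rw [← h3]
      exact (hlip n y v hy1 (hwj j)).trans_lt hyj
    have h6 := hge (n + 1)
    rw [iterate_succ_apply', iterate_succ_apply', h3] at h6
    have h7 : ‖F^[n] y - w‖ ≤ ‖y - v‖ := by
      rw [← h3]
      exact hlip n y v hy1 (hwj j)
    have h8 : ‖F^[n] y - c1‖ < 1 := ultra_lt h5 (by rw [norm_sub_rev]; exact hxw)
    have h9 : ‖w - c1‖ < 1 := by rw [norm_sub_rev]; exact hxw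
    have h10 := crit_le hf c1 (hnear w c1 hw hxw) hc1 (F^[n] y) w
      (max ‖F^[n] y - c1‖ ‖w - c1‖) (max_le h8.le h9.le) (le_max_left _ _) (le_max_right _ _)
    have h11 : ‖F (F^[n] y) - F w‖ ≤ ‖F^[n] y - w‖ * max ‖F^[n] y - c1‖ ‖w - c1‖ := h10
    have h12 : max ‖F^[n] y - c1‖ ‖w - c1‖ < 1 := max_lt h8 h9
    have h13 : ‖F^[n] y - w‖ * max ‖F^[n] y - c1‖ ‖w - c1‖ ≤
        ‖y - v‖ * max ‖F^[n] y - c1‖ ‖w - c1‖ :=
      mul_le_mul_of_nonneg_right h7 (le_max_of_le_left (norm_nonneg _))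
    have h14 : ‖y - v‖ * max ‖F^[n] y - c1‖ ‖w - c1‖ < ‖y - v‖ * 1 :=
      mul_lt_mul_of_pos_left h12 hD0'
    linarith
  -- critical points near the orbit are eventually on it
  have hcap : ∀ (j : ℕ) (c : U), (derivative f).eval c = 0 → ‖c - F^[j] w‖ < 1 →
      ∃ s : ℕ, F^[s] c = F^[s] (F^[j] w) := by
    intro j c hc hcj
    have hfin := hpcf c hc
    obtain ⟨a, b, hab, hFab⟩ : ∃ a b : ℕ, a < b ∧ F^[a] c = F^[b] c := by
      by_contra hcon
      push Not at hcon
      have hinj : Function.Injective (fun n : ℕ => F^[n] c) := by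
        intro a b h
        rcases lt_trichotomy a b with h1 | h1 | h1
        · exact absurd h (hcon a b h1)
        · exact h1
        · exact absurd h.symm (hcon b a h1)
      exact Set.infinite_range_of_injective hinj hfin
    refine ⟨a, ?_⟩
    have hper : F^[a] c ∈ periodicPts F := by
      refine ⟨b - a, by omega, ?_⟩
      show F^[b - a] (F^[a] c) = F^[a] c
      rw [← iterate_add_apply, Nat.sub_add_cancel hab.le]
      exact hFab.symm
    have h1 : F^[a] (F^[j] w) = F^[a + j] w := by rw [iterate_add_apply]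
    rw [h1]
    refine huniq (a + j) _ hper ?_
    rw [← h1]
    exact (hlip a c (F^[j] w) (hnear _ _ (hwj j) hcj) (hwj j)).trans_lt hcj
  -- the pairs
  have hO : (Set.range fun j : ℕ => F^[j] w).Finite := by
    refine ((Finset.range m).image (fun j => F^[j] w)).finite_toSet.subset ?_
    rintro _ ⟨j, rfl⟩
    rw [Finset.coe_image]
    refine ⟨j % m, ?_, ?_⟩
    · rw [Finset.coe_range]
      exact Nat.mod_lt _ hm0
    · exact (show IsPeriodicPt F m w from hm).iterate_mod_apply j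
  have hder : derivative f ≠ 0 := by
    intro h
    have := derivative_eq_zero.1 h
    omega
  have hCr : {c : U | (derivative f).eval c = 0}.Finite := by
    refine (derivative f).roots.toFinset.finite_toSet.subset ?_
    intro c hc
    simp only [Finset.mem_coe, Multiset.mem_toFinset]
    rw [mem_roots hder]
    exact hc
  let P : Set (U × U) := {q | q.1 ∈ (Set.range fun j : ℕ => F^[j] w) ∧
    (derivative f).eval q.2 = 0 ∧ 0 < ‖q.2 - q.1‖ ∧ ‖q.2 - q.1‖ ≤ D ^ 3 / 2}
  have hPfin : P.Finite := by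
    refine (hO.prod hCr).subset ?_
    rintro ⟨v, c⟩ ⟨h1, h2, -, -⟩
    exact ⟨h1, h2⟩
  have hPne : P.Nonempty := by
    refine ⟨(w, c1), ⟨0, rfl⟩, hc1, ?_, hc1w'⟩
    show 0 < ‖c1 - w‖
    refine norm_pos_iff.2 (sub_ne_zero.2 fun h => hFc1 ?_)
    rw [h]
  obtain ⟨⟨v, c'⟩, hvc, hmin⟩ := Set.exists_min_image P (fun q => ‖q.2 - q.1‖) hPfin hPne
  obtain ⟨⟨j, hj⟩, hc', hr0, hr1⟩ := hvc
  simp only at hj hc' hr0 hr1 hmin
  set r := ‖c' - v‖ with hr
  have hv1 : ‖v‖ ≤ 1 := by rw [← hj]; exact hwj j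
  have hr1' : r < 1 := by linarith
  have hcv : c' ≠ v := by
    intro h
    rw [hr, h, sub_self, norm_zero] at hr0
    exact lt_irrefl _ hr0
  -- minimality for all critical points
  have hmin' : ∀ (t : ℕ) (c : U), (derivative f).eval c = 0 → F c ≠ F (F^[t] v) →
      r ≤ ‖c - F^[t] v‖ := by
    intro t c hc hFc
    by_contra hcon
    push Not at hcon
    have h1 : ‖c - F^[t] v‖ ≤ D ^ 3 / 2 := by linarith
    have h2 := hmin (F^[t] v, c) ⟨⟨t + j, ?_⟩, hc, ?_, h1⟩
    · have h3 : r ≤ ‖c - F^[t] v‖ := h2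
      linarith
    · show F^[t + j] w = F^[t] v
      rw [iterate_add_apply, hj]
    · show 0 < ‖c - F^[t] v‖
      refine norm_pos_iff.2 (sub_ne_zero.2 fun h => hFc ?_)
      rw [h]
  -- the second step of the orbit of a critical point
  have hsq : ∀ (c : U), (derivative f).eval c = 0 → ‖c - v‖ < 1 → F c ≠ F v →
      D * r ≤ ‖c - v‖ ^ 2 := by
    intro c hc hcr hFc
    have hex : ∃ s : ℕ, F^[s] c = F^[s] v := by
      rw [← hj]
      exact hcap j c hc (by rw [hj]; exact hcr)
    have hs := Nat.find_spec hex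
    have hsmin := fun k => Nat.find_min (H := hex) (m := k)
    set s := Nat.find hex with hsdef
    have hc1' : ‖c‖ ≤ 1 := hnear v c hv1 hcr
    rcases hs0 : s with _ | _ | t
    · rw [hs0] at hs
      have h1 : c = v := hs
      exact absurd (by rw [h1]) hFc
    · rw [hs0] at hs
      exact absurd hs hFc
    · have hyt : F^[t + 1] c ≠ F^[t + 1] v := hsmin (t + 1) (by omega)
      rw [hs0, iterate_succ_apply', iterate_succ_apply' F (t + 1) v] at hs
      obtain ⟨c2, h1, h2, h3⟩ := hroll (F^[t + 1] v) (F^[t + 1] c) hyt hs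
      have h5 := hmin' (t + 1) c2 h1 h3
      have h6 : ‖F c - F v‖ ≤ ‖c - v‖ * ‖c - v‖ :=
        crit_le hf c hc1' hc c v ‖c - v‖ hcr.le (by rw [sub_self, norm_zero]; exact norm_nonneg _)
          (by rw [norm_sub_rev])
      have h7 : ‖F^[t + 1] c - F^[t + 1] v‖ ≤ ‖F c - F v‖ := by
        rw [iterate_succ_apply, iterate_succ_apply]
        exact hlip t _ _ (eval_le hf c hc1') (eval_le hf v hv1)
      calc D * r ≤ D * ‖c2 - F^[t + 1] v‖ := mul_le_mul_of_nonneg_left h5 hD0.le
        _ ≤ ‖F^[t + 1] c - F^[t + 1] v‖ := h2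
        _ ≤ ‖c - v‖ ^ 2 := by rw [pow_two]; exact h7.trans h6
  -- the minimal critical point
  have hFc' : F c' = F v := by
    by_contra hcon
    have h1 := hsq c' hc' hr1' hcon
    rw [← hr, pow_two] at h1
    have h2 : D ≤ r := le_of_mul_le_mul_right h1 hr0
    have h3 : D ^ 3 ≤ D := by
      calc D ^ 3 ≤ D ^ 1 := pow_le_pow_of_le_one hD0.le hD1 (by norm_num)
        _ = D := pow_one D
    linarith
  obtain ⟨c'', h1, h2, h3⟩ := hroll v c' hcv hFc'
  rw [← hr] at h2
  have h4 : ‖c'' - v‖ ≤ D ^ 2 / 2 := by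
    have h5 : D * ‖c'' - v‖ ≤ D * (D ^ 2 / 2) := by
      refine h2.trans (hr1.trans (le_of_eq ?_))
      ring
    exact le_of_mul_le_mul_left h5 hD0
  have hD2 : D ^ 2 ≤ 1 := pow_le_one₀ hD0.le hD1
  have h5 := hsq c'' h1 (by linarith) h3
  have h6 : D ^ 3 * r ≤ r * r := by
    calc D ^ 3 * r = D ^ 2 * (D * r) := by ring
      _ ≤ D ^ 2 * ‖c'' - v‖ ^ 2 := mul_le_mul_of_nonneg_left h5 (by positivity)
      _ = (D * ‖c'' - v‖) * (D * ‖c'' - v‖) := by ring
      _ ≤ r * r := mul_le_mul h2 h2 (by positivity) hr0.le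
  have h7 : D ^ 3 ≤ r := le_of_mul_le_mul_right h6 hr0
  have h8 : 0 < D ^ 3 := by positivity
  linarith

end Pool.Agent.Y930.TP
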